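import Mathlib

/-!
# MP_fb12c6_gt : a ballean with `cof_⋆ < cof_*`

The ballean is `ℕ` with all entourages `E ⊇ Δ` such that all sections `E[x]` and `E⁻¹[x]`
are finite.
-/

namespace Pool.Agent.Results.MP_fb12c6_gt.CofStarLtCofAst

open Set Cardinal

universe u

/-- A ballean on the set `X`: a family of entourages, each containing the diagonal, such that
each `E ∘ F⁻¹ = {(x, z) | ∃ y, (x, y) ∈ E ∧ (z, y) ∈ F}` lies in an entourage and
the union of all entourages is `X × X`. -/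
structure Ballean (X : Type u) where
  /-- the family of entourages -/
  ent : Set (Set (X × X))
  /-- entourages contain the diagonal -/
  diag : ∀ E ∈ ent, ∀ x : X, (x, x) ∈ E
  /-- `E ∘ F⁻¹` is contained in an entourage -/
  comp : ∀ E ∈ ent, ∀ F ∈ ent, ∃ D ∈ ent, {p : X × X | ∃ y, (p.1, y) ∈ E ∧ (p.2, y) ∈ F} ⊆ D
  /-- the union of all entourages is `X × X` -/
  cover : ⋃₀ ent = Set.univ

/-- `E[A] = ⋃_{a ∈ A} {y | (a, y) ∈ E}`. -/
def img {X : Type u} (E : Set (X × X)) (A : Set X) : Set X := {y | ∃ a ∈ A, (a, y) ∈ E}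

/-- `B` is bounded if `B ⊆ E[x]` for some entourage `E` and some point `x`. -/
def Ballean.Bounded {X : Type u} (b : Ballean X) (B : Set X) : Prop :=
  ∃ E ∈ b.ent, ∃ x : X, B ⊆ {y | (x, y) ∈ E}

/-- The square `X × X` of a ballean. -/
def Ballean.sq {X : Type u} (b : Ballean X) : Ballean (X × X) where
  ent := {E | ∃ E₁ ∈ b.ent, ∃ E₂ ∈ b.ent,
    E = {p : (X × X) × (X × X) | (p.1.1, p.2.1) ∈ E₁ ∧ (p.1.2, p.2.2) ∈ E₂}}
  diag := by
    rintro E ⟨E₁, h₁, E₂, h₂, rfl⟩ ⟨x, y⟩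
    exact ⟨b.diag _ h₁ _, b.diag _ h₂ _⟩
  comp := by
    rintro E ⟨E₁, h₁, E₂, h₂, rfl⟩ F ⟨F₁, k₁, F₂, k₂, rfl⟩
    obtain ⟨D₁, hD₁, e₁⟩ := b.comp _ h₁ _ k₁
    obtain ⟨D₂, hD₂, e₂⟩ := b.comp _ h₂ _ k₂
    refine ⟨_, ⟨D₁, hD₁, D₂, hD₂, rfl⟩, ?_⟩
    rintro ⟨⟨x, x'⟩, ⟨z, z'⟩⟩ ⟨⟨y, y'⟩, ⟨a₁, a₂⟩, ⟨b₁, b₂⟩⟩
    exact ⟨e₁ ⟨y, a₁, b₁⟩, e₂ ⟨y', a₂, b₂⟩⟩
  cover := by
    rw [Set.eq_univ_iff_forall]
    rintro ⟨⟨x, x'⟩, ⟨y, y'⟩⟩
    have h : ∀ p : X × X, ∃ E ∈ b.ent, p ∈ E := fun p => by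
      have : p ∈ ⋃₀ b.ent := by rw [b.cover]; trivial
      exact this
    obtain ⟨E₁, h₁, k₁⟩ := h (x, y)
    obtain ⟨E₂, h₂, k₂⟩ := h (x', y')
    exact ⟨_, ⟨E₁, h₁, E₂, h₂, rfl⟩, k₁, k₂⟩

/-- `cof_*(𝓔_X)`: the least `|𝒞|` over `𝒞 ⊆ 𝓔_X` such that for each `E ∈ 𝓔_X` some `C ∈ 𝒞`
makes `E \ C` bounded in `X × X`. -/
noncomputable def cofAst {X : Type u} (b : Ballean X) : Cardinal.{u} :=
  sInf {κ | ∃ C : Set (Set (X × X)), C ⊆ b.ent ∧ #C = κ ∧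
    ∀ E ∈ b.ent, ∃ D ∈ C, b.sq.Bounded (E \ D)}

/-- `cof_*(𝓔_X[A])`: the least `|𝒞|` over `𝒞 ⊆ 𝓔_X` such that for each `E ∈ 𝓔_X` some `C ∈ 𝒞`
satisfies: `E[A] \ C[A]` is bounded. -/
noncomputable def cofAstOn {X : Type u} (b : Ballean X) (A : Set X) : Cardinal.{u} :=
  sInf {κ | ∃ C : Set (Set (X × X)), C ⊆ b.ent ∧ #C = κ ∧
    ∀ E ∈ b.ent, ∃ D ∈ C, b.Bounded (img E A \ img D A)}

/-- `cof_⋆(𝓔_X) = sup_{A ⊆ X} cof_*(𝓔_X[A])`. -/
noncomputable def cofStar {X : Type u} (b : Ballean X) : Cardinal.{u} :=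
  ⨆ A : Set X, cofAstOn b A

/-- The ballean of all locally finite entourages of `ℕ`. -/
def lf : Ballean ℕ where
  ent := {E | (∀ x : ℕ, (x, x) ∈ E) ∧ (∀ x : ℕ, {y | (x, y) ∈ E}.Finite) ∧
    ∀ y : ℕ, {x | (x, y) ∈ E}.Finite}
  diag := fun E hE x => hE.1 x
  comp := by
    rintro E ⟨e₀, e₁, e₂⟩ F ⟨f₀, f₁, f₂⟩
    refine ⟨_, ⟨?_, ?_, ?_⟩, subset_rfl⟩
    · intro x
      exact ⟨x, e₀ x, f₀ x⟩
    · intro x
      have : {z | (x, z) ∈ {p : ℕ × ℕ | ∃ y, (p.1, y) ∈ E ∧ (p.2, y) ∈ F}}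
          ⊆ ⋃ y ∈ {y | (x, y) ∈ E}, {z | (z, y) ∈ F} := by
        rintro z ⟨y, h₁, h₂⟩
        exact Set.mem_biUnion h₁ h₂
      exact ((e₁ x).biUnion fun y _ => f₂ y).subset this
    · intro z
      have : {x | (x, z) ∈ {p : ℕ × ℕ | ∃ y, (p.1, y) ∈ E ∧ (p.2, y) ∈ F}}
          ⊆ ⋃ y ∈ {y | (z, y) ∈ F}, {x | (x, y) ∈ E} := by
        rintro x ⟨y, h₁, h₂⟩
        exact Set.mem_biUnion h₂ h₁
      exact ((f₁ z).biUnion fun y _ => e₂ y).subset this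
  cover := by
    rw [Set.eq_univ_iff_forall]
    rintro ⟨a, b⟩
    refine ⟨{p | p.1 = p.2 ∨ p = (a, b)}, ⟨fun x => Or.inl rfl, fun x => ?_, fun y => ?_⟩,
      Or.inr rfl⟩
    · refine (Set.toFinite {x, b}).subset ?_
      rintro y (h | h)
      · simp at h; simp [h]
      · simp at h; simp [h]
    · refine (Set.toFinite {y, a}).subset ?_
      rintro x (h | h)
      · simp at h; simp [h]
      · simp at h; simp [h]

theorem lf_bounded_iff (B : Set ℕ) : lf.Bounded B ↔ B.Finite := by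
  constructor
  · rintro ⟨E, hE, x, h⟩
    exact (hE.2.1 x).subset h
  · intro hB
    refine ⟨{p | p.1 = p.2 ∨ (p.1 = 0 ∧ p.2 ∈ B)}, ⟨fun x => Or.inl rfl, fun x => ?_, fun y => ?_⟩,
      0, fun y hy => Or.inr ⟨rfl, hy⟩⟩
    · refine (hB.union (Set.finite_singleton x)).subset ?_
      rintro y (h | h)
      · exact Or.inr h.symm
      · exact Or.inl h.2
    · refine (Set.toFinite {y, 0}).subset ?_
      rintro x (h | h)
      · exact Or.inl h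
      · exact Or.inr h.1

theorem lf_sq_bounded {B : Set (ℕ × ℕ)} (h : lf.sq.Bounded B) : B.Finite := by
  obtain ⟨E, ⟨E₁, h₁, E₂, h₂, rfl⟩, ⟨x, x'⟩, h⟩ := h
  refine ((h₁.2.1 x).prod (h₂.2.1 x')).subset ?_
  rintro ⟨y, y'⟩ hy
  exact h hy

theorem lf_diag_mem : {p : ℕ × ℕ | p.1 = p.2} ∈ lf.ent := by
  refine ⟨fun x => rfl, fun x => ?_, fun y => ?_⟩
  · refine (Set.finite_singleton x).subset ?_
    rintro y h
    exact h.symm
  · refine (Set.finite_singleton y).subset ?_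
    rintro x h
    exact h

theorem cofAstOn_lf (A : Set ℕ) : cofAstOn lf A ≤ 1 := by
  rcases A.finite_or_infinite with hA | hA
  · refine csInf_le' ⟨{{p : ℕ × ℕ | p.1 = p.2}}, ?_, by simp, ?_⟩
    · rw [Set.singleton_subset_iff]; exact lf_diag_mem
    · intro E hE
      refine ⟨_, rfl, (lf_bounded_iff _).2 ?_⟩
      have : img E A \ img {p : ℕ × ℕ | p.1 = p.2} A ⊆ ⋃ a ∈ A, {y | (a, y) ∈ E} := by
        rintro y ⟨⟨a, ha, h⟩, -⟩
        exact Set.mem_biUnion ha h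
      exact (hA.biUnion fun a _ => hE.2.1 a).subset this
  · -- an injective enumeration of points of `A`
    obtain ⟨f, hf, hfA⟩ : ∃ f : ℕ → ℕ, Function.Injective f ∧ ∀ n, f n ∈ A :=
      ⟨fun n => (hA.natEmbedding A n : ℕ), fun m n h =>
        (hA.natEmbedding A).injective (Subtype.ext h), fun n => (hA.natEmbedding A n).2⟩
    refine csInf_le' ⟨{{p : ℕ × ℕ | p.1 = p.2 ∨ p.1 = f p.2}}, ?_, by simp, ?_⟩
    · rw [Set.singleton_subset_iff]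
      refine ⟨fun x => Or.inl rfl, fun x => ?_, fun y => ?_⟩
      · have : {y | (x, y) ∈ {p : ℕ × ℕ | p.1 = p.2 ∨ p.1 = f p.2}} ⊆ {x} ∪ f ⁻¹' {x} := by
          rintro y (h | h)
          · exact Or.inl h.symm
          · exact Or.inr h.symm
        exact ((Set.finite_singleton x).union ((Set.finite_singleton x).preimage hf.injOn)).subset
          this
      · refine (Set.toFinite {y, f y}).subset ?_
        rintro x (h | h)
        · exact Or.inl h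
        · exact Or.inr h
    · intro E hE
      refine ⟨_, rfl, (lf_bounded_iff _).2 ?_⟩
      have : img E A \ img {p : ℕ × ℕ | p.1 = p.2 ∨ p.1 = f p.2} A ⊆ ∅ := by
        rintro y ⟨-, h⟩
        exact h ⟨f y, hfA y, Or.inr rfl⟩
      exact Set.finite_empty.subset this

theorem cofStar_lf_le : cofStar lf ≤ 1 := ciSup_le' cofAstOn_lf

theorem one_le_cofAstOn (A : Set ℕ) : 1 ≤ cofAstOn lf A := by
  have hne : {κ : Cardinal.{0} | ∃ C : Set (Set (ℕ × ℕ)), C ⊆ lf.ent ∧ #C = κ ∧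
    ∀ E ∈ lf.ent, ∃ D ∈ C, lf.Bounded (img E A \ img D A)}.Nonempty := by
    refine ⟨_, lf.ent, subset_rfl, rfl, fun E hE => ⟨E, hE, (lf_bounded_iff _).2 ?_⟩⟩
    simp
  refine le_csInf hne ?_
  rintro κ ⟨C, hC, rfl, h⟩
  obtain ⟨D, hD, -⟩ := h _ lf_diag_mem
  rw [Cardinal.one_le_iff_ne_zero, Cardinal.mk_ne_zero_iff]
  exact ⟨⟨D, hD⟩⟩

theorem cofStar_lf : cofStar lf = 1 := by
  refine le_antisymm cofStar_lf_le ?_
  refine (one_le_cofAstOn ∅).trans ?_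
  exact le_ciSup (f := fun A => cofAstOn lf A) ⟨1, by rintro _ ⟨A, rfl⟩; exact cofAstOn_lf A⟩ ∅

theorem aleph0_lt_cofAst : ℵ₀ < cofAst lf := by
  have hne : {κ : Cardinal.{0} | ∃ C : Set (Set (ℕ × ℕ)), C ⊆ lf.ent ∧ #C = κ ∧
    ∀ E ∈ lf.ent, ∃ D ∈ C, lf.sq.Bounded (E \ D)}.Nonempty := by
    refine ⟨_, lf.ent, subset_rfl, rfl, fun E hE => ⟨E, hE, ?_⟩⟩
    simp only [sdiff_self]
    exact ⟨_, ⟨_, lf_diag_mem, _, lf_diag_mem, rfl⟩, (0, 0), Set.empty_subset _⟩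
  have hmem := csInf_mem hne
  obtain ⟨C, hC, hcard, h⟩ := hmem
  change #C = cofAst lf at hcard
  rw [← hcard]
  by_contra hcon
  rw [not_lt, Cardinal.le_aleph0_iff_set_countable] at hcon
  have hCne : C.Nonempty := by
    obtain ⟨D, hD, -⟩ := h _ lf_diag_mem
    exact ⟨D, hD⟩
  obtain ⟨c, rfl⟩ := hcon.exists_eq_range hCne
  -- choose `m n` outside the sections at `n` of the first `n` entourages, strictly increasing
  have key : ∀ n k : ℕ, ∃ m : ℕ, k < m ∧ ∀ j ≤ n, (n, m) ∉ c j := by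
    intro n k
    have hfin : (⋃ j ∈ Set.Iic n, {y | (n, y) ∈ c j}).Finite :=
      (Set.finite_Iic n).biUnion fun j _ => (hC ⟨j, rfl⟩).2.1 n
    obtain ⟨m, hm⟩ := (hfin.union (Set.finite_Iic k)).exists_notMem
    refine ⟨m, ?_, ?_⟩
    · by_contra hk
      exact hm (Or.inr (not_lt.1 hk))
    · intro j hj hmem
      exact hm (Or.inl (Set.mem_biUnion (show j ∈ Set.Iic n from hj) hmem))
  choose g hg₁ hg₂ using key
  obtain ⟨m, hm_zero, hm_succ⟩ : ∃ m : ℕ → ℕ, m 0 = g 0 0 ∧ ∀ n, m (n + 1) = g (n + 1) (m n) :=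
    ⟨fun n => Nat.rec (g 0 0) (fun n r => g (n + 1) r) n, rfl, fun n => rfl⟩
  have hmono : StrictMono m := strictMono_nat_of_lt_succ fun n => by
    rw [hm_succ]; exact hg₁ _ _
  have hout : ∀ n, ∀ j ≤ n, (n, m n) ∉ c j := by
    intro n
    cases n with
    | zero => rw [hm_zero]; exact hg₂ 0 0
    | succ n => rw [hm_succ]; exact hg₂ _ _
  have hE : {p : ℕ × ℕ | p.1 = p.2 ∨ p.2 = m p.1} ∈ lf.ent := by
    refine ⟨fun x => Or.inl rfl, fun x => ?_, fun y => ?_⟩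
    · refine (Set.toFinite ({x, m x} : Set ℕ)).subset ?_
      rintro y (h | h)
      · exact Or.inl h.symm
      · exact Or.inr h
    · have : {x | (x, y) ∈ {p : ℕ × ℕ | p.1 = p.2 ∨ p.2 = m p.1}} ⊆ {y} ∪ m ⁻¹' {y} := by
        rintro x (h | h)
        · exact Or.inl h
        · exact Or.inr h.symm
      exact ((Set.finite_singleton y).union
        ((Set.finite_singleton y).preimage hmono.injective.injOn)).subset this
  obtain ⟨D, ⟨k, rfl⟩, hD⟩ := h _ hE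
  have hfin := lf_sq_bounded hD
  have hsub : (fun n => (n, m n)) '' (Set.Ici k) ⊆
      {p : ℕ × ℕ | p.1 = p.2 ∨ p.2 = m p.1} \ c k := by
    rintro _ ⟨n, hn, rfl⟩
    exact ⟨Or.inr rfl, hout n k hn⟩
  have hinj : Function.Injective (fun n : ℕ => (n, m n)) := fun a b h => (Prod.ext_iff.1 h).1
  exact ((Set.Ici_infinite k).image hinj.injOn) (hfin.subset hsub)

/-- There is a ballean with `cof_⋆ < cof_*`; more precisely the ballean of locally finite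
entourages of `ℕ` has `cof_⋆ = 1` and `cof_* > ℵ₀`. -/
theorem result : ∃ b : Ballean ℕ, cofStar b = 1 ∧ ℵ₀ < cofAst b ∧ cofStar b < cofAst b :=
  ⟨lf, cofStar_lf, aleph0_lt_cofAst, by
    rw [cofStar_lf]; exact Cardinal.one_lt_aleph0.trans aleph0_lt_cofAst⟩

end Pool.Agent.Results.MP_fb12c6_gt.CofStarLtCofAst
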